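import Mathlib

set_option autoImplicit false

/-!
# Groups in which abelian normal subgroups are central and there are no Heisenberg relations
-/

namespace Pool.Agent.Y796.SD

open scoped commutatorElement

variable {G : Type} [Group G]

/-- abelian normal subgroups are central -/
def AN (G : Type) [Group G] : Prop :=
  ∀ N : Subgroup G, N.Normal → (∀ x ∈ N, ∀ y ∈ N, x * y = y * x) → N ≤ Subgroup.center G

/-- no Heisenberg relations -/
def NH (G : Type) [Group G] : Prop :=
  ∀ b c z : G, z * b = b * z → z * c = c * z → b * c = z * (c * b) → z = 1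

theorem comm_of_central (hb : NH G) {x y : G} (h : ⁅x, y⁆ ∈ Subgroup.center G) :
    x * y = y * x := by
  have h2 := Subgroup.mem_center_iff.1 h
  have h3 : ⁅x, y⁆ = 1 := by
    apply hb x y
    · exact (h2 x).symm
    · exact (h2 y).symm
    · rw [commutatorElement_def]; group
  exact commutatorElement_eq_one_iff_mul_comm.1 h3

/-- solvable normal subgroups are central -/
theorem solv_central (ha : AN G) (hb : NH G) (N : Subgroup G) (hN : N.Normal)
    (hs : Group.IsSolvable N) : N ≤ Subgroup.center G := by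
  obtain ⟨n, hn⟩ := hs.solvable
  let D : ℕ → Subgroup G := fun i => (derivedSeries N i).map N.subtype
  have hD : ∀ i, (D i).Normal := fun i => ConjAct.normal_of_characteristic_of_normal
  have step : ∀ i, D (i + 1) ≤ Subgroup.center G → D i ≤ Subgroup.center G := by
    intro i hi
    apply ha (D i) (hD i)
    rintro _ ⟨x, hx, rfl⟩ _ ⟨y, hy, rfl⟩
    apply comm_of_central hb
    apply hi
    refine ⟨⁅x, y⁆, ?_, ?_⟩
    · rw [derivedSeries_succ]
      exact Subgroup.commutator_mem_commutator hx hy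
    · exact map_commutatorElement _ _ _
  have hall : ∀ k : ℕ, D (n - k) ≤ Subgroup.center G := by
    intro k
    induction k with
    | zero =>
      rw [Nat.sub_zero]
      change (derivedSeries N n).map N.subtype ≤ _
      rw [hn, Subgroup.map_bot]
      exact bot_le
    | succ k ih =>
      by_cases hk : n ≤ k
      · have : n - (k + 1) = n - k := by omega
        rw [this]
        exact ih
      · have : n - k = (n - (k + 1)) + 1 := by omega
        rw [this] at ih
        exact step _ ih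
  have h0 := hall n
  rw [Nat.sub_self] at h0
  change (derivedSeries N 0).map N.subtype ≤ _ at h0
  rw [derivedSeries_zero, ← MonoidHom.range_eq_map, Subgroup.range_subtype] at h0
  exact h0

/-- modulo the center there are no solvable normal subgroups -/
theorem solv_mod_center (ha : AN G) (hb : NH G) (N : Subgroup (G ⧸ Subgroup.center G))
    (hN : N.Normal) (hs : Group.IsSolvable N) : N = ⊥ := by
  let q := QuotientGroup.mk' (Subgroup.center G)
  let M : Subgroup G := N.comap q
  have hM : M.Normal := hN.comap q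
  let g : M →* N := (q.comp M.subtype).codRestrict N (fun x => x.2)
  let f : Subgroup.center G →* M := Subgroup.inclusion (by
    intro x hx
    change q x ∈ N
    have : q x = 1 := (QuotientGroup.eq_one_iff x).2 hx
    rw [this]
    exact N.one_mem)
  have hcs : Group.IsSolvable (Subgroup.center G) :=
    Group.isSolvable_of_comm (fun a b => Subtype.ext ((Subgroup.mem_center_iff.1 b.2) a))
  have hMs : Group.IsSolvable M := by
    refine Group.isSolvable_of_ker_le_range f g ?_
    intro x hx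
    have h1 : q (x : G) = 1 := congrArg Subtype.val (MonoidHom.mem_ker.1 hx)
    exact ⟨⟨x, (QuotientGroup.eq_one_iff (x : G)).1 h1⟩, Subtype.ext rfl⟩
  have h1 := solv_central ha hb M hM hMs
  rw [eq_bot_iff]
  intro x hx
  obtain ⟨y, rfl⟩ := QuotientGroup.mk'_surjective _ x
  have h2 : y ∈ M := hx
  rw [Subgroup.mem_bot]
  exact (QuotientGroup.eq_one_iff y).2 (h1 h2)

/-- nilpotent subgroups are abelian -/
theorem nilp_abelian (hb : NH G) (K : Subgroup G) (hK : Group.IsNilpotent K) :
    ∀ x ∈ K, ∀ y ∈ K, x * y = y * x := by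
  have hbK : NH K := by
    intro b c z h1 h2 h3
    apply Subtype.ext
    exact hb b c z (congrArg Subtype.val h1) (congrArg Subtype.val h2) (congrArg Subtype.val h3)
  obtain ⟨n, hn⟩ := hK.nilpotent'
  have key : ∀ n, Subgroup.upperCentralSeries K n ≤ Subgroup.center K := by
    intro n
    induction n with
    | zero => rw [Subgroup.upperCentralSeries_zero]; exact bot_le
    | succ n ih =>
      intro x hx
      rw [Subgroup.mem_center_iff]
      intro y
      exact (comm_of_central hbK (ih (Subgroup.mem_upperCentralSeries_succ_iff.1 hx y))).symm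
  have h := key n
  rw [hn] at h
  intro x hx y hy
  have h1 := Subgroup.mem_center_iff.1 (h (Subgroup.mem_top (⟨x, hx⟩ : K))) ⟨y, hy⟩
  exact (congrArg Subtype.val h1).symm

/-- normal subgroups in which any two elements generate a nilpotent subgroup are central -/
theorem locnil_central (ha : AN G) (hb : NH G) (N : Subgroup G) (hN : N.Normal)
    (hs : ∀ x ∈ N, ∀ y ∈ N, Group.IsNilpotent (Subgroup.closure {x, y})) :
    N ≤ Subgroup.center G := by
  apply ha N hN
  intro x hx y hy
  exact nilp_abelian hb _ (hs x hx y hy) x (Subgroup.subset_closure (by simp)) y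
    (Subgroup.subset_closure (by simp))

/-- no nontrivial perfect subgroups -/
def NP (G : Type) [Group G] : Prop := ∀ H : Subgroup G, ⁅H, H⁆ = H → H = ⊥

theorem NP.of_injective {G' : Type} [Group G'] (h : NP G') (f : G →* G')
    (hf : Function.Injective f) : NP G := by
  intro H hH
  have h1 : ⁅H.map f, H.map f⁆ = H.map f := by
    rw [← Subgroup.map_commutator, hH]
  have h2 := h _ h1
  exact (Subgroup.map_eq_bot_iff_of_injective _ hf).1 h2

/-- The relations of Thompson's group give perfect subgroups. -/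
theorem thompson (hs : NP G) (T : G →* G) (x0 : G)
    (h : ∀ ξ, T (T ξ) = x0⁻¹ * T ξ * x0) : T (T x0) = T x0 := by
  let x : ℕ → G := fun n => (T^[n]) x0
  have hx0 : x 0 = x0 := rfl
  have hx : ∀ n, x (n + 1) = T (x n) := fun n => Function.iterate_succ_apply' _ _ _
  have rel : ∀ i j, i < j → (x i)⁻¹ * x j * x i = x (j + 1) := by
    intro i
    induction i with
    | zero =>
      intro j hj
      obtain ⟨j, rfl⟩ : ∃ j', j = j' + 1 := ⟨j - 1, by omega⟩
      rw [hx0, hx (j + 1), hx j, h]
    | succ i ih =>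
      intro j hj
      obtain ⟨j, rfl⟩ : ∃ j', j = j' + 1 := ⟨j - 1, by omega⟩
      have := congrArg T (ih j (by omega))
      rw [map_mul, map_mul, map_inv, ← hx, ← hx, ← hx] at this
      exact this
  let y : ℕ → G := fun j => (x (j + 1))⁻¹ * x j
  have hy : ∀ j, y (j + 1) = ⁅(y (j + 2))⁻¹, y j⁆ := by
    intro j
    have r1 := rel j (j + 2) (by omega)
    have r2 := rel j (j + 1) (by omega)
    have r3 := rel (j + 1) (j + 2) (by omega)
    have s1 : x (j + 2) = x j * x (j + 3) * (x j)⁻¹ := by rw [← r1]; group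
    have s2 : x j * x (j + 2) * (x j)⁻¹ = x (j + 1) := by rw [← r2]; group
    rw [commutatorElement_def, inv_inv]
    have t1 : y j * y (j + 2) * (y j)⁻¹ = (x (j + 3))⁻¹ * x (j + 1) := by
      change (x (j + 1))⁻¹ * x j * ((x (j + 3))⁻¹ * x (j + 2)) * ((x (j + 1))⁻¹ * x j)⁻¹ = _
      calc (x (j + 1))⁻¹ * x j * ((x (j + 3))⁻¹ * x (j + 2)) * ((x (j + 1))⁻¹ * x j)⁻¹
          = (x (j + 1))⁻¹ * (x j * x (j + 3) * (x j)⁻¹)⁻¹ * (x j * x (j + 2) * (x j)⁻¹) *
            x (j + 1) := by group
        _ = (x (j + 1))⁻¹ * (x (j + 2))⁻¹ * x (j + 1) * x (j + 1) := by rw [← s1, s2]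
        _ = ((x (j + 1))⁻¹ * x (j + 2) * x (j + 1))⁻¹ * x (j + 1) := by group
        _ = _ := by rw [r3]
    calc y (j + 1) = (x (j + 2))⁻¹ * x (j + 1) := rfl
      _ = (x (j + 2))⁻¹ * x (j + 3) * ((x (j + 3))⁻¹ * x (j + 1)) := by group
      _ = (y (j + 2))⁻¹ * (y j * y (j + 2) * (y j)⁻¹) := by
          rw [t1]
          change _ = ((x (j + 3))⁻¹ * x (j + 2))⁻¹ * _
          group
      _ = _ := by group
  -- all the conjugates of `y 1` by powers of `x₀`
  have hy1 : y 2 = x0⁻¹ * y 1 * x0 := by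
    have r1 : (x 0)⁻¹ * x 1 * x 0 = x 2 := rel 0 1 (by omega)
    have r2 : (x 0)⁻¹ * x 2 * x 0 = x 3 := rel 0 2 (by omega)
    change (x 3)⁻¹ * x 2 = x0⁻¹ * ((x 2)⁻¹ * x 1) * x0
    rw [← r2, ← r1, hx0]; group
  have hy2 : y 3 = x0⁻¹ * y 2 * x0 := by
    have r1 : (x 0)⁻¹ * x 2 * x 0 = x 3 := rel 0 2 (by omega)
    have r2 : (x 0)⁻¹ * x 3 * x 0 = x 4 := rel 0 3 (by omega)
    change (x 4)⁻¹ * x 3 = x0⁻¹ * ((x 3)⁻¹ * x 2) * x0
    rw [← r2, ← r1, hx0]; group
  let z : ℤ → G := fun i => x0 ^ (-i) * y 1 * x0 ^ i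
  have hz1 : z 1 = y 2 := by
    change x0 ^ (-(1 : ℤ)) * y 1 * x0 ^ (1 : ℤ) = _
    rw [hy1]; simp
  have hz0 : z 0 = y 1 := by
    change x0 ^ (-(0 : ℤ)) * y 1 * x0 ^ (0 : ℤ) = _
    simp
  have hzc : ∀ i k : ℤ, z (i + k) = x0 ^ (-k) * z i * x0 ^ k := by
    intro i k
    change x0 ^ (-(i + k)) * y 1 * x0 ^ (i + k) = x0 ^ (-k) * (x0 ^ (-i) * y 1 * x0 ^ i) * x0 ^ k
    group
  have hz2 : z 2 = y 3 := by
    have h1 := hzc 1 1
    rw [hz1] at h1
    have h2 : z 2 = x0 ^ (-(1 : ℤ)) * y 2 * x0 ^ (1 : ℤ) := h1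
    rw [h2, hy2]; simp
  have hzr : ∀ i : ℤ, z (i + 1) = ⁅(z (i + 2))⁻¹, z i⁆ := by
    intro i
    have h1 : z 1 = ⁅(z 2)⁻¹, z 0⁆ := by rw [hz1, hz2, hz0]; exact hy 1
    have e1 : z (i + 1) = x0 ^ (-i) * z 1 * x0 ^ i := by rw [add_comm i 1]; exact hzc 1 i
    have e2 : z (i + 2) = x0 ^ (-i) * z 2 * x0 ^ i := by rw [add_comm i 2]; exact hzc 2 i
    have e0 : z i = x0 ^ (-i) * z 0 * x0 ^ i := by
      have := hzc 0 i
      rwa [zero_add] at this
    rw [e1, e2, e0, h1, commutatorElement_def, commutatorElement_def]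
    group
  have hH : ⁅Subgroup.closure (Set.range z), Subgroup.closure (Set.range z)⁆ =
      Subgroup.closure (Set.range z) := by
    apply le_antisymm
    · rw [Subgroup.commutator_le]
      intro a ha b hb
      rw [commutatorElement_def]
      exact mul_mem (mul_mem (mul_mem ha hb) (inv_mem ha)) (inv_mem hb)
    · rw [Subgroup.closure_le]
      rintro _ ⟨i, rfl⟩
      have : z i = ⁅(z (i - 1 + 2))⁻¹, z (i - 1)⁆ := by
        rw [← hzr (i - 1)]; congr 1; ring
      rw [this]
      exact Subgroup.commutator_mem_commutator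
        (inv_mem (Subgroup.subset_closure ⟨_, rfl⟩)) (Subgroup.subset_closure ⟨_, rfl⟩)
  have hbot := hs _ hH
  have h1 : z 0 ∈ Subgroup.closure (Set.range z) := Subgroup.subset_closure ⟨0, rfl⟩
  rw [hbot, Subgroup.mem_bot, hz0] at h1
  have h2 : (x 2)⁻¹ * x 1 = 1 := h1
  rw [inv_mul_eq_one] at h2
  rw [hx 1, hx 0, hx0] at h2
  exact h2

end Pool.Agent.Y796.SD
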