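import Mathlib
import Pool.Agent.H599R3.SV.Fin
import Pool.Agent.Y796.SD.A

set_option autoImplicit false

/-!
# Finitely presented diagram groups without idempotents
-/

namespace Pool.Agent.Y796.SD

open H540DG Pool.Agent.H599R3.RH Pool.Agent.H599R3.SV

open scoped commutatorElement

section

variable {A : Type} {P : Pres A}

/-- an idempotent gives a nontrivial perfect subgroup -/
theorem idem (e : List A) (he : e ≠ []) (ε : U P) (hε : Pi e ε (e ++ e))
    (hs : NP (Dg P e)) : False := by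
  have hR0 : Pi e ε (e ++ (e ++ [])) := by simpa using hε
  have hL0 : Pi e ε ([] ++ (e ++ e)) := by simpa using hε
  set R := cw hR0 with hR
  set L := cw hL0 with hL
  have hRi := cw_inj hR0
  have hLi := cw_inj hL0
  have h1 : Pi (e ++ e) (wh [] e ε) (e ++ (e ++ e)) := by
    have := hε.wh [] e
    simpa using this
  have h2 : Pi (e ++ e) (wh e [] ε) (e ++ (e ++ e)) := by
    have := hε.wh e []
    simpa using this
  let x0 : Dg P e := ⟨ε * wh [] e ε * (wh e [] ε)⁻¹ * ε⁻¹,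
    (((hε.trans h1).trans h2.symm).trans hε.symm)⟩
  have hRR : ∀ ξ, R (R ξ) = x0⁻¹ * R ξ * x0 := by
    intro ξ
    apply Subtype.ext
    have i1 := interchange hε ξ.2
    change ε * wh e [] (ε * wh e [] ξ.1 * ε⁻¹) * ε⁻¹ =
      (ε * wh [] e ε * (wh e [] ε)⁻¹ * ε⁻¹)⁻¹ * (ε * wh e [] ξ.1 * ε⁻¹) *
        (ε * wh [] e ε * (wh e [] ε)⁻¹ * ε⁻¹)
    calc ε * wh e [] (ε * wh e [] ξ.1 * ε⁻¹) * ε⁻¹
        = ε * wh e [] ε * wh (e ++ e) [] ξ.1 * (wh e [] ε)⁻¹ * ε⁻¹ := by
          rw [map_mul, map_mul, map_inv, wh_wh]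
          simp only [List.nil_append]
          group
      _ = ε * wh e [] ε * ((wh [] e ε)⁻¹ * (wh [] e ε * wh (e ++ e) [] ξ.1)) *
            (wh e [] ε)⁻¹ * ε⁻¹ := by group
      _ = ε * wh e [] ε * ((wh [] e ε)⁻¹ * (wh e [] ξ.1 * wh [] e ε)) *
            (wh e [] ε)⁻¹ * ε⁻¹ := by rw [i1]
      _ = _ := by group
  have hLL : ∀ ξ, L (L ξ) = (x0⁻¹)⁻¹ * L ξ * x0⁻¹ := by
    intro ξ
    apply Subtype.ext
    have i1 := interchange ξ.2 hε
    change ε * wh [] e (ε * wh [] e ξ.1 * ε⁻¹) * ε⁻¹ =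
      ((ε * wh [] e ε * (wh e [] ε)⁻¹ * ε⁻¹)⁻¹)⁻¹ * (ε * wh [] e ξ.1 * ε⁻¹) *
        (ε * wh [] e ε * (wh e [] ε)⁻¹ * ε⁻¹)⁻¹
    calc ε * wh [] e (ε * wh [] e ξ.1 * ε⁻¹) * ε⁻¹
        = ε * wh [] e ε * wh [] (e ++ e) ξ.1 * (wh [] e ε)⁻¹ * ε⁻¹ := by
          rw [map_mul, map_mul, map_inv, wh_wh]
          simp only [List.nil_append]
          group
      _ = ε * wh [] e ε * ((wh e [] ε)⁻¹ * (wh e [] ε * wh [] (e ++ e) ξ.1)) *
            (wh [] e ε)⁻¹ * ε⁻¹ := by group
      _ = ε * wh [] e ε * ((wh e [] ε)⁻¹ * (wh [] e ξ.1 * wh e [] ε)) *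
            (wh [] e ε)⁻¹ * ε⁻¹ := by rw [i1]
      _ = _ := by group
  have r1 := hRi (Pool.Agent.Y796.SD.thompson hs R x0 hRR)
  have l1 := hLi (Pool.Agent.Y796.SD.thompson hs L x0⁻¹ hLL)
  rw [map_inv, inv_inj] at l1
  have h3 : wh e [] x0.1 = wh [] e x0.1 := by
    have h4 := congrArg Subtype.val (r1.trans l1.symm)
    have h5 : ε * wh e [] x0.1 * ε⁻¹ = ε * wh [] e x0.1 * ε⁻¹ := h4
    exact mul_left_cancel (mul_right_cancel h5)
  have h4 : x0.1 = 1 := by
    have hi : Pi e (x0.1)⁻¹ e := (Dg P e).inv_mem x0.2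
    refine (prod_inj (α := (x0.1)⁻¹) (β := x0.1) hi x0.2 ?_).2
    rw [h3, map_inv, inv_mul_cancel]
  have h5 : wh [] e ε = wh e [] ε := by
    have h6 : ε * wh [] e ε * (wh e [] ε)⁻¹ * ε⁻¹ = 1 := h4
    have h7 : wh [] e ε * (wh e [] ε)⁻¹ = 1 := by
      have : wh [] e ε * (wh e [] ε)⁻¹ =
          ε⁻¹ * (ε * wh [] e ε * (wh e [] ε)⁻¹ * ε⁻¹) * ε := by group
      rw [this, h6]; group
    exact mul_inv_eq_one.1 h7
  have t1 : th ε e.length = e.length := by
    have := th_wh_le e [] ε (t := e.length) le_rfl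
    rw [← h5, th_wh_right] at this
    exact this
  have t2 := hε.th (t := 0) le_rfl
  rw [add_zero, add_zero] at t2
  have t3 := (th ε).injective (t2.trans t1.symm)
  simp only [List.length_append] at t3
  push_cast at t3
  have t4 : (0 : ℚ) < e.length := by exact_mod_cast List.length_pos_of_ne_nil he
  linarith


/-- The word `w` is not equal modulo the presentation `P` to a word `B e C` whose factor `e` is a
nonempty word with `e = e e` modulo `P`. (Two words are equal modulo `P` if there is an edge path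
between them in the Squier complex.) -/
def NoIdem (P : Pres A) (w : List A) : Prop :=
  ∀ e B C : List A, e ≠ [] → (∃ L : List (OE P), IsPath e L (e ++ e)) →
    ¬ ∃ L : List (OE P), IsPath w L (B ++ (e ++ C))

theorem noIdem_of_NP {w : List A} (h : NP (Dg P w)) : NoIdem P w := by
  rintro e B C he ⟨L, hL⟩ ⟨M, hM⟩
  have hg : Pi w (pv M) (B ++ (e ++ C)) := ⟨M, hM, rfl⟩
  exact Pool.Agent.Y796.SD.idem e he (pv L) ⟨L, hL, rfl⟩ (h.of_injective (cw hg) (cw_inj hg))

/-- finite algebraic dimension -/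
theorem ad (w : List A) (hfp : FinPres (Dg P w)) (h : NoIdem P w) : ∃ n, AdLE (Dg P w) n := by
  obtain ⟨N, hN⟩ := bounded w hfp (by
    rintro e B C ε g he ⟨L, hL, -⟩ ⟨M, hM, -⟩
    exact h e B C he ⟨L, hL⟩ ⟨M, hM⟩)
  exact ⟨N, adLE_of_decLE hN⟩

theorem an_Dg {w : List A} {n : ℕ} (had : AdLE (Dg P w) n) : AN (Dg P w) :=
  fun N hN hc a ha => Subgroup.mem_center_iff.2 (fun g => central_aux had N hN hc a ha g)

theorem nh_Dg (w : List A) : NH (Dg P w) := by
  intro b c z h1 h2 h3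
  apply Subtype.ext
  exact no_heis (b := b.1) (c := c.1) z.2 (congrArg Subtype.val h1) (congrArg Subtype.val h2)
    (congrArg Subtype.val h3)

end

theorem AN.of_equiv {G H : Type} [Group G] [Group H] (e : G ≃* H) (h : AN H) : AN G := by
  intro N hN hc
  have h1 := h (N.map e.toMonoidHom) (hN.map _ e.surjective) (by
    rintro _ ⟨x, hx, rfl⟩ _ ⟨y, hy, rfl⟩
    rw [← map_mul, ← map_mul, hc x hx y hy])
  intro x hx
  rw [Subgroup.mem_center_iff]
  intro g
  apply e.injective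
  have h2 := Subgroup.mem_center_iff.1 (h1 ⟨x, hx, rfl⟩) (e g)
  rw [map_mul, map_mul]
  exact h2

theorem NH.of_equiv {G H : Type} [Group G] [Group H] (e : G ≃* H) (h : NH H) : NH G := by
  intro b c z h1 h2 h3
  apply e.injective
  rw [map_one]
  apply h (e b) (e c) (e z)
  · rw [← map_mul, ← map_mul, h1]
  · rw [← map_mul, ← map_mul, h2]
  · rw [← map_mul, ← map_mul, ← map_mul, h3]

/-- solvable groups have no nontrivial perfect subgroups -/
theorem np_of_solvable {G : Type} [Group G] (hs : Group.IsSolvable G) : NP G := by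
  intro H hH
  obtain ⟨n, hn⟩ := hs.solvable
  have key : ∀ n, H ≤ derivedSeries G n := by
    intro n
    induction n with
    | zero => rw [derivedSeries_zero]; exact le_top
    | succ n ih =>
      rw [derivedSeries_succ, ← hH]
      exact Subgroup.commutator_mono ih ih
  have := key n
  rw [hn] at this
  exact le_bot_iff.1 this

end Pool.Agent.Y796.SD
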